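import Pool.Agent.Q34.GridCB

set_option autoImplicit false
open scoped LinearAlgebra.Projectivization

namespace Pool.Agent.Results.MP_23142e_ag.AllDegreesFail

/-- `S` satisfies the Cayley–Bacharach condition with respect to forms of degree `m`: every form of
degree `m` vanishing at all points of `S` except possibly one vanishes at that point too. -/
def CayleyBacharach (m : ℕ) (S : Finset (ℙ ℂ (Fin 3 → ℂ))) : Prop :=
  ∀ p ∈ S, ∀ f : MvPolynomial (Fin 3) ℂ, f.IsHomogeneous m →
    (∀ q ∈ S, q ≠ p → MvPolynomial.eval q.rep f = 0) → MvPolynomial.eval p.rep f = 0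

/-- `S` is contained in a plane curve of degree `d` (possibly reducible or non-reduced), that is,
all points of `S` are zeros of some nonzero form of degree `d`. -/
def OnPlaneCurve (d : ℕ) (S : Finset (ℙ ℂ (Fin 3 → ℂ))) : Prop :=
  ∃ F : MvPolynomial (Fin 3) ℂ, F ≠ 0 ∧ F.IsHomogeneous d ∧
    ∀ p ∈ S, MvPolynomial.eval p.rep F = 0

/-- For every `d ≥ 3` the statement fails in the plane: there are `m ≥ 1` and a finite set `S` with
the Cayley–Bacharach property for degree `m` and `|S| ≤ (d+3)m/2 + 1` on no curve of degree `d`. -/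
theorem result (d : ℕ) (hd : 3 ≤ d) :
    ∃ m : ℕ, 1 ≤ m ∧ ∃ S : Finset (ℙ ℂ (Fin 3 → ℂ)), CayleyBacharach m S ∧
      (S.card : ℝ) ≤ ((d : ℝ) + 3) / 2 * (m : ℝ) + 1 ∧ ¬ OnPlaneCurve d S := by
  refine ⟨2 * d - 1, by omega, Q34.Grid.grid d, Q34.Grid.grid_cb d (2 * d - 1) (by omega), ?_, ?_⟩
  · rw [Q34.Grid.card_grid]
    have h1 : ((2 * d - 1 : ℕ) : ℝ) = 2 * (d : ℝ) - 1 := by
      rw [Nat.cast_sub (by omega)]; push_cast; ring
    rw [h1]
    push_cast
    have h2 : (3 : ℝ) ≤ d := by exact_mod_cast hd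
    nlinarith
  · rintro ⟨F, hF, hhom, hz⟩
    exact hF (Q34.Grid.grid_no_form d d le_rfl F hhom hz)

end Pool.Agent.Results.MP_23142e_ag.AllDegreesFail
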